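import Mathlib
import Pool.Agent.Results.MP_b50d59_nt.ShortIntervals

set_option autoImplicit false

/-!
# Composite `n` with `φ(n) ∣ n - a(n)`: almost all translates of a sequence avoid the solutions

A number `n > 4` is a solution if it is composite and `φ(n) ∣ n - a(n)`. For a sequence `f` of integers
and almost all integers `c` none of the numbers `|c + f(n)|` with `n ≤ |c| ^ κ` is a solution: for
polynomials `f` and `κ < 1/2`, and for sequences of exponential growth and `κ < 1/3`.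
-/

namespace Pool.Agent.Results.MP_b50d59_nt.AlmostAllTranslates

open Filter Topology

/-- `n > 4` is composite and `φ(n) ∣ n - a(n)`, `a(n)` the largest exponent of `n` -/
def Solution (n : ℕ) : Prop := 4 < n ∧ ¬ n.Prime ∧ n.totient ∣ (n - Nca8c8b9b.a n)

/-- the integers `c` in `(x, x + y]` such that `|c + b|` is a solution for some `b` in `S` -/
def Bad (x : ℤ) (y : ℕ) (S : Finset ℤ) : Set ℤ :=
  {c | x < c ∧ c ≤ x + y ∧ ∃ b ∈ S, Solution (c + b).natAbs}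

/-- the integers `c` such that `|c + f n|` is a solution for some `n ≤ |c| ^ κ` -/
def BadSeq (f : ℕ → ℤ) (κ : ℝ) : Set ℤ :=
  {c | ∃ n : ℕ, (n : ℝ) ≤ |(c : ℝ)| ^ κ ∧ Solution (c + f n).natAbs}

/-- at most `X ^ (1 - δ)` integers of absolute value at most `X` are in `A`, for some `δ > 0` and all
large `X` -/
def PowerSparse (A : Set ℤ) : Prop :=
  ∃ δ : ℝ, 0 < δ ∧ ∀ᶠ X : ℕ in atTop, (({c : ℤ | c ∈ A ∧ |c| ≤ X}.ncard : ℕ) : ℝ) ≤ (X : ℝ) ^ (1 - δ)

theorem one : ∃ C : ℝ, 0 < C ∧ ∀ (x : ℤ) (y : ℕ) (b : ℤ), 1 ≤ y → ∃ T : Finset ℤ,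
    (∀ c : ℤ, x < c → c ≤ x + y → Solution (c + b).natAbs → c ∈ T) ∧
    (T.card : ℝ) ≤ C * Real.sqrt (y * Real.log ((x.natAbs : ℝ) + y + b.natAbs + 2)) := by
  classical
  obtain ⟨C, hC, h⟩ := Pool.Agent.Results.MP_b50d59_nt.ShortIntervals.result
  refine ⟨2 * C, by positivity, fun x y b hy => ?_⟩
  set F : ℕ → Finset ℕ := fun u => (Finset.Ioc u (u + y)).filter (fun n : ℕ =>
      4 < n ∧ ¬ n.Prime ∧ n.totient ∣ (n - Nca8c8b9b.a n)) with hF
  have hFc : ∀ u : ℕ, u ≤ x.natAbs + b.natAbs → ((F u).card : ℝ) ≤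
      C * Real.sqrt (y * Real.log ((x.natAbs : ℝ) + y + b.natAbs + 2)) := by
    intro u hu
    refine ((h u y hy).1).trans (mul_le_mul_of_nonneg_left (Real.sqrt_le_sqrt ?_) hC.le)
    refine mul_le_mul_of_nonneg_left (Real.log_le_log (by positivity) ?_) (Nat.cast_nonneg y)
    have h1 : (u : ℝ) ≤ x.natAbs + b.natAbs := by exact_mod_cast hu
    linarith
  refine ⟨(F (x + b).toNat).image (fun n : ℕ => (n : ℤ) - b) ∪
    (F (-(x + b + y) - 1).toNat).image (fun n : ℕ => -(n : ℤ) - b), ?_, ?_⟩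
  · intro c hc1 hc2 hs
    rw [Finset.mem_union, Finset.mem_image, Finset.mem_image]
    have h4 := hs.1
    rcases le_or_gt 0 (c + b) with hm | hm
    · left
      refine ⟨(c + b).natAbs, ?_, by omega⟩
      simp only [hF, Finset.mem_filter, Finset.mem_Ioc]
      exact ⟨⟨by omega, by omega⟩, hs⟩
    · right
      refine ⟨(c + b).natAbs, ?_, by omega⟩
      simp only [hF, Finset.mem_filter, Finset.mem_Ioc]
      exact ⟨⟨by omega, by omega⟩, hs⟩
  · have h1 := hFc (x + b).toNat (by omega)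
    have h2 := hFc (-(x + b + y) - 1).toNat (by omega)
    have h3 := Finset.card_union_le ((F (x + b).toNat).image (fun n : ℕ => (n : ℤ) - b))
      ((F (-(x + b + y) - 1).toNat).image (fun n : ℕ => -(n : ℤ) - b))
    have h4 := Finset.card_image_le (s := F (x + b).toNat) (f := fun n : ℕ => (n : ℤ) - b)
    have h5 := Finset.card_image_le (s := F (-(x + b + y) - 1).toNat)
      (f := fun n : ℕ => -(n : ℤ) - b)
    have h6 : ((((F (x + b).toNat).image (fun n : ℕ => (n : ℤ) - b) ∪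
        (F (-(x + b + y) - 1).toNat).image (fun n : ℕ => -(n : ℤ) - b)).card : ℕ) : ℝ) ≤
        (F (x + b).toNat).card + (F (-(x + b + y) - 1).toNat).card := by
      exact_mod_cast h3.trans (add_le_add h4 h5)
    linarith

theorem many : ∃ C : ℝ, 0 < C ∧ ∀ (x : ℤ) (y B : ℕ) (S : Finset ℤ), 1 ≤ y →
    (∀ b ∈ S, b.natAbs ≤ B) → (Bad x y S).Finite ∧
    ((Bad x y S).ncard : ℝ) ≤
      C * S.card * Real.sqrt (y * Real.log ((x.natAbs : ℝ) + y + B + 2)) := by
  classical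
  obtain ⟨C, hC, h⟩ := one
  refine ⟨C, hC, fun x y B S hy hS => ?_⟩
  choose! T hT1 hT2 using fun (b : ℤ) => h x y b hy
  have hsub : Bad x y S ⊆ ((S.biUnion T : Finset ℤ) : Set ℤ) := by
    rintro c ⟨h1, h2, b, hb, hs⟩
    rw [Finset.mem_coe, Finset.mem_biUnion]
    exact ⟨b, hb, hT1 b c h1 h2 hs⟩
  refine ⟨(Finset.finite_toSet _).subset hsub, ?_⟩
  have h1 : (Bad x y S).ncard ≤ (S.biUnion T).card := by
    rw [← Set.ncard_coe_finset]
    exact Set.ncard_le_ncard hsub (Finset.finite_toSet _)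
  have h2 : ((S.biUnion T).card : ℝ) ≤ ∑ b ∈ S, ((T b).card : ℝ) := by
    exact_mod_cast Finset.card_biUnion_le
  have h3 : ∑ b ∈ S, ((T b).card : ℝ) ≤
      ∑ _b ∈ S, C * Real.sqrt (y * Real.log ((x.natAbs : ℝ) + y + B + 2)) := by
    refine Finset.sum_le_sum fun b hb => (hT2 b).trans ?_
    refine mul_le_mul_of_nonneg_left (Real.sqrt_le_sqrt ?_) hC.le
    refine mul_le_mul_of_nonneg_left (Real.log_le_log (by positivity) ?_) (Nat.cast_nonneg y)
    have h4 : (b.natAbs : ℝ) ≤ B := by exact_mod_cast hS b hb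
    linarith
  rw [Finset.sum_const, nsmul_eq_mul] at h3
  calc ((Bad x y S).ncard : ℝ) ≤ (S.biUnion T).card := by exact_mod_cast h1
    _ ≤ _ := h2
    _ ≤ _ := h3
    _ = C * S.card * Real.sqrt (y * Real.log ((x.natAbs : ℝ) + y + B + 2)) := by ring

theorem seq (f : ℕ → ℤ) (θ D κ : ℝ) (hθ : 0 ≤ θ) (hD : 0 ≤ D) (hκ : 0 < κ)
    (hf : ∀ n : ℕ, Real.log (((f n).natAbs : ℝ) + 1) ≤ D * ((n : ℝ) + 1) ^ θ)
    (hκθ : κ * (2 + θ) < 1) : PowerSparse (BadSeq f κ) := by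
  classical
  obtain ⟨C, hC, h⟩ := many
  -- the exponents
  set E : ℝ := κ + 1 / 2 + κ * θ / 2 with hE
  have hE1 : E < 1 := by rw [hE]; nlinarith
  set η : ℝ := 1 - E with hη
  have hη0 : 0 < η := by rw [hη]; linarith
  set M : ℝ := 3 + 2 / η + D * 2 ^ θ with hM
  have h2θ : (0 : ℝ) < 2 ^ θ := by positivity
  have hM0 : 0 < M := by rw [hM]; positivity
  -- the bound for all `X ≥ 1`
  have hmain : ∀ X : ℕ, 1 ≤ X → (({c : ℤ | c ∈ BadSeq f κ ∧ |c| ≤ X}.ncard : ℕ) : ℝ) ≤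
      C * (2 * Real.sqrt (3 * M)) * (X : ℝ) ^ (E + η / 4) := by
    intro X hX
    have hXR : (1 : ℝ) ≤ X := by exact_mod_cast hX
    have hX0 : (0 : ℝ) < X := by linarith
    set N : ℕ := ⌊(X : ℝ) ^ κ⌋₊ with hN
    have hXκ : (1 : ℝ) ≤ (X : ℝ) ^ κ := Real.one_le_rpow hXR hκ.le
    have hN1 : (N : ℝ) ≤ (X : ℝ) ^ κ := Nat.floor_le (by linarith)
    have hN2 : (N : ℝ) + 1 ≤ 2 * (X : ℝ) ^ κ := by linarith
    have hNθ : ((N : ℝ) + 1) ^ θ ≤ 2 ^ θ * (X : ℝ) ^ (κ * θ) := by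
      calc ((N : ℝ) + 1) ^ θ ≤ (2 * (X : ℝ) ^ κ) ^ θ :=
            Real.rpow_le_rpow (by positivity) hN2 hθ
        _ = 2 ^ θ * (X : ℝ) ^ (κ * θ) := by
            rw [Real.mul_rpow (by norm_num) (by positivity), ← Real.rpow_mul hX0.le]
    set B : ℕ := ⌊Real.exp (D * ((N : ℝ) + 1) ^ θ)⌋₊ with hB
    have hBle : (B : ℝ) ≤ Real.exp (D * ((N : ℝ) + 1) ^ θ) := Nat.floor_le (Real.exp_pos _).le
    have hfB : ∀ n ≤ N, (f n).natAbs ≤ B := by
      intro n hn
      rw [hB]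
      refine Nat.le_floor ?_
      have h1 : ((n : ℝ) + 1) ^ θ ≤ ((N : ℝ) + 1) ^ θ := by
        refine Real.rpow_le_rpow (by positivity) ?_ hθ
        have : (n : ℝ) ≤ N := by exact_mod_cast hn
        linarith
      have h2 : ((f n).natAbs : ℝ) + 1 ≤ Real.exp (D * ((N : ℝ) + 1) ^ θ) := by
        rw [← Real.log_le_iff_le_exp (by positivity)]
        exact (hf n).trans (mul_le_mul_of_nonneg_left h1 hD)
      linarith
    have hsub : {c : ℤ | c ∈ BadSeq f κ ∧ |c| ≤ X} ⊆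
        Bad (-(X : ℤ) - 1) (2 * X + 1) ((Finset.range (N + 1)).image f) := by
      rintro c ⟨⟨n, hn, hs⟩, hc⟩
      have hc' := abs_le.1 hc
      refine ⟨by linarith [hc'.1], by push_cast; linarith [hc'.2], f n, ?_, hs⟩
      rw [Finset.mem_image]
      refine ⟨n, ?_, rfl⟩
      rw [Finset.mem_range, Nat.lt_succ_iff, hN]
      refine Nat.le_floor (hn.trans (Real.rpow_le_rpow (abs_nonneg _) ?_ hκ.le))
      exact_mod_cast hc
    obtain ⟨hfin, hle⟩ := h (-(X : ℤ) - 1) (2 * X + 1) B ((Finset.range (N + 1)).image f) (by omega)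
      (by
        intro b hb
        rw [Finset.mem_image] at hb
        obtain ⟨n, hn, rfl⟩ := hb
        exact hfB n (Nat.lt_succ_iff.1 (Finset.mem_range.1 hn)))
    have hcard : (((Finset.range (N + 1)).image f).card : ℝ) ≤ 2 * (X : ℝ) ^ κ := by
      have h1 : (((Finset.range (N + 1)).image f).card : ℝ) ≤ N + 1 := by
        have := Finset.card_image_le (s := Finset.range (N + 1)) (f := f)
        rw [Finset.card_range] at this
        exact_mod_cast this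
      linarith
    -- the logarithm
    have hlog : Real.log (((-(X : ℤ) - 1).natAbs : ℝ) + ((2 * X + 1 : ℕ) : ℝ) + B + 2) ≤
        M * (X : ℝ) ^ (κ * θ + η / 2) := by
      have e1 : (((-(X : ℤ) - 1).natAbs : ℕ) : ℝ) = X + 1 := by
        have : (-(X : ℤ) - 1).natAbs = X + 1 := by omega
        rw [this]
        push_cast
        ring
      have hexp : 1 ≤ Real.exp (D * ((N : ℝ) + 1) ^ θ) := Real.one_le_exp (by positivity)
      have h1 : ((-(X : ℤ) - 1).natAbs : ℝ) + ((2 * X + 1 : ℕ) : ℝ) + B + 2 ≤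
          8 * X * Real.exp (D * ((N : ℝ) + 1) ^ θ) := by
        rw [e1]
        push_cast
        nlinarith [mul_le_mul_of_nonneg_right hexp hX0.le,
          mul_le_mul hXR hexp zero_le_one hX0.le]
      have h2 : Real.log (((-(X : ℤ) - 1).natAbs : ℝ) + ((2 * X + 1 : ℕ) : ℝ) + B + 2) ≤
          Real.log 8 + Real.log X + D * ((N : ℝ) + 1) ^ θ := by
        refine (Real.log_le_log (by positivity) h1).trans ?_
        rw [Real.log_mul (by positivity) (Real.exp_pos _).ne', Real.log_mul (by norm_num) hX0.ne',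
          Real.log_exp]
      have h3 : Real.log 8 ≤ 3 := by
        have : Real.log 8 = 3 * Real.log 2 := by
          rw [show (8 : ℝ) = 2 ^ 3 by norm_num, Real.log_pow]
          norm_num
        rw [this]
        linarith [Real.log_two_lt_d9]
      have h4 : Real.log X ≤ (X : ℝ) ^ (η / 2) / (η / 2) :=
        Real.log_le_rpow_div hX0.le (by positivity)
      have h5 : (X : ℝ) ^ (η / 2) ≤ (X : ℝ) ^ (κ * θ + η / 2) :=
        Real.rpow_le_rpow_of_exponent_le hXR (by nlinarith)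
      have h6 : (X : ℝ) ^ (κ * θ) ≤ (X : ℝ) ^ (κ * θ + η / 2) :=
        Real.rpow_le_rpow_of_exponent_le hXR (by linarith)
      have h7 : 1 ≤ (X : ℝ) ^ (κ * θ + η / 2) := Real.one_le_rpow hXR (by positivity)
      have h8 : D * ((N : ℝ) + 1) ^ θ ≤ D * 2 ^ θ * (X : ℝ) ^ (κ * θ + η / 2) := by
        calc D * ((N : ℝ) + 1) ^ θ ≤ D * (2 ^ θ * (X : ℝ) ^ (κ * θ)) :=
              mul_le_mul_of_nonneg_left hNθ hD
          _ ≤ D * (2 ^ θ * (X : ℝ) ^ (κ * θ + η / 2)) := by gcongr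
          _ = _ := by ring
      have h9 : (X : ℝ) ^ (η / 2) / (η / 2) ≤ 2 / η * (X : ℝ) ^ (κ * θ + η / 2) := by
        have e2 : (X : ℝ) ^ (η / 2) / (η / 2) = 2 / η * (X : ℝ) ^ (η / 2) := by
          field_simp
        rw [e2]
        gcongr
      rw [hM]
      calc _ ≤ _ := h2
        _ ≤ 3 * (X : ℝ) ^ (κ * θ + η / 2) + 2 / η * (X : ℝ) ^ (κ * θ + η / 2) +
            D * 2 ^ θ * (X : ℝ) ^ (κ * θ + η / 2) := by
          linarith
        _ = _ := by ring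
    have hsqrt : Real.sqrt (((2 * X + 1 : ℕ) : ℝ) *
        Real.log (((-(X : ℤ) - 1).natAbs : ℝ) + ((2 * X + 1 : ℕ) : ℝ) + B + 2)) ≤
        Real.sqrt (3 * M) * (X : ℝ) ^ ((1 + (κ * θ + η / 2)) / 2) := by
      have h1 : ((2 * X + 1 : ℕ) : ℝ) *
          Real.log (((-(X : ℤ) - 1).natAbs : ℝ) + ((2 * X + 1 : ℕ) : ℝ) + B + 2) ≤
          (3 * M) * (X : ℝ) ^ (1 + (κ * θ + η / 2)) := by
        have h2 : ((2 * X + 1 : ℕ) : ℝ) ≤ 3 * X := by push_cast; linarith
        calc _ ≤ ((2 * X + 1 : ℕ) : ℝ) * (M * (X : ℝ) ^ (κ * θ + η / 2)) :=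
              mul_le_mul_of_nonneg_left hlog (Nat.cast_nonneg _)
          _ ≤ (3 * X) * (M * (X : ℝ) ^ (κ * θ + η / 2)) :=
              mul_le_mul_of_nonneg_right h2 (by positivity)
          _ = (3 * M) * (X : ℝ) ^ (1 + (κ * θ + η / 2)) := by
              rw [Real.rpow_add hX0 1 (κ * θ + η / 2), Real.rpow_one]
              ring
      refine (Real.sqrt_le_sqrt h1).trans (le_of_eq ?_)
      rw [Real.sqrt_mul (by positivity)]
      congr 1
      rw [Real.sqrt_eq_rpow, ← Real.rpow_mul hX0.le]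
      congr 1
      ring
    calc (({c : ℤ | c ∈ BadSeq f κ ∧ |c| ≤ X}.ncard : ℕ) : ℝ) ≤
          ((Bad (-(X : ℤ) - 1) (2 * X + 1) ((Finset.range (N + 1)).image f)).ncard : ℝ) := by
            exact_mod_cast Set.ncard_le_ncard hsub hfin
      _ ≤ _ := hle
      _ ≤ C * (2 * (X : ℝ) ^ κ) * (Real.sqrt (3 * M) * (X : ℝ) ^ ((1 + (κ * θ + η / 2)) / 2)) := by
          gcongr
      _ = C * (2 * Real.sqrt (3 * M)) * (X : ℝ) ^ (E + η / 4) := by
          have e3 : (X : ℝ) ^ (E + η / 4) =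
              (X : ℝ) ^ κ * (X : ℝ) ^ ((1 + (κ * θ + η / 2)) / 2) := by
            rw [← Real.rpow_add hX0]
            congr 1
            rw [hE]
            ring
          rw [e3]
          ring
  refine ⟨η / 4, by positivity, ?_⟩
  have hlim : Tendsto (fun X : ℕ => (X : ℝ) ^ (η / 2)) atTop atTop :=
    (tendsto_rpow_atTop (by positivity)).comp tendsto_natCast_atTop_atTop
  filter_upwards [hlim.eventually_ge_atTop (C * (2 * Real.sqrt (3 * M))), eventually_ge_atTop 1]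
    with X hX1 hX2
  have hX0 : (0 : ℝ) < X := by exact_mod_cast hX2
  calc _ ≤ _ := hmain X hX2
    _ ≤ (X : ℝ) ^ (η / 2) * (X : ℝ) ^ (E + η / 4) :=
        mul_le_mul_of_nonneg_right hX1 (by positivity)
    _ = (X : ℝ) ^ (1 - η / 4) := by
        rw [← Real.rpow_add hX0]
        congr 1
        rw [hη]
        ring

/-- polynomials have polynomial growth -/
theorem poly (F : Polynomial ℤ) : ∃ A : ℕ, ∀ n : ℕ, (F.eval (n : ℤ)).natAbs ≤
    A * (n + 1) ^ F.natDegree := by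
  refine ⟨∑ i ∈ Finset.range (F.natDegree + 1), (F.coeff i).natAbs, fun n => ?_⟩
  rw [Polynomial.eval_eq_sum_range, Finset.sum_mul]
  refine (Int.natAbs_sum_le _ _).trans (Finset.sum_le_sum fun i hi => ?_)
  rw [Int.natAbs_mul, Int.natAbs_pow, Int.natAbs_natCast]
  refine Nat.mul_le_mul_left _ ?_
  calc n ^ i ≤ (n + 1) ^ i := Nat.pow_le_pow_left (by omega) _
    _ ≤ (n + 1) ^ F.natDegree :=
      Nat.pow_le_pow_right (by omega) (Nat.lt_succ_iff.1 (Finset.mem_range.1 hi))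

theorem polySparse (F : Polynomial ℤ) (κ : ℝ) (hκ : 0 < κ) (hκ2 : κ < 1 / 2) :
    PowerSparse (BadSeq (fun n => F.eval (n : ℤ)) κ) := by
  obtain ⟨A, hA⟩ := poly F
  set θ : ℝ := (1 / κ - 2) / 2 with hθ
  have h1 : 2 < 1 / κ := by
    rw [lt_div_iff₀ hκ]
    linarith
  have hθ0 : 0 < θ := by rw [hθ]; linarith
  have hκθ : κ * (2 + θ) < 1 := by
    have : κ * (2 + θ) = κ + 1 / 2 := by
      rw [hθ]
      field_simp
      ring
    rw [this]
    linarith
  have hl : 0 ≤ Real.log ((A : ℝ) + 1) :=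
    Real.log_nonneg (by linarith [(Nat.cast_nonneg A : (0 : ℝ) ≤ A)])
  refine seq (fun n => F.eval (n : ℤ)) θ (Real.log (A + 1) + F.natDegree / θ) κ hθ0.le
    (by positivity) hκ (fun n => ?_) hκθ
  have hn : (0 : ℝ) < (n : ℝ) + 1 := by positivity
  have hn1 : (1 : ℝ) ≤ (n : ℝ) + 1 := by linarith [(Nat.cast_nonneg n : (0 : ℝ) ≤ n)]
  have h2 : (((F.eval (n : ℤ)).natAbs : ℕ) : ℝ) + 1 ≤
      ((A : ℝ) + 1) * ((n : ℝ) + 1) ^ F.natDegree := by
    have h3 : (((F.eval (n : ℤ)).natAbs : ℕ) : ℝ) ≤ (A : ℝ) * ((n : ℝ) + 1) ^ F.natDegree := by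
      exact_mod_cast hA n
    have h4 : 1 ≤ ((n : ℝ) + 1) ^ F.natDegree := one_le_pow₀ hn1
    linarith
  have h5 : Real.log ((n : ℝ) + 1) ≤ ((n : ℝ) + 1) ^ θ / θ := Real.log_le_rpow_div hn.le hθ0
  have h6 : 1 ≤ ((n : ℝ) + 1) ^ θ := Real.one_le_rpow hn1 hθ0.le
  calc Real.log ((((F.eval (n : ℤ)).natAbs : ℕ) : ℝ) + 1) ≤
        Real.log (((A : ℝ) + 1) * ((n : ℝ) + 1) ^ F.natDegree) :=
        Real.log_le_log (by positivity) h2
    _ = Real.log (A + 1) + F.natDegree * Real.log ((n : ℝ) + 1) := by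
        rw [Real.log_mul (by positivity) (by positivity), Real.log_pow]
    _ ≤ Real.log (A + 1) * ((n : ℝ) + 1) ^ θ + F.natDegree * (((n : ℝ) + 1) ^ θ / θ) :=
        add_le_add (le_mul_of_one_le_right hl h6)
          (mul_le_mul_of_nonneg_left h5 (Nat.cast_nonneg _))
    _ = (Real.log (A + 1) + F.natDegree / θ) * ((n : ℝ) + 1) ^ θ := by ring

theorem expSparse (f : ℕ → ℤ) (A : ℕ) (hf : ∀ n, (f n).natAbs ≤ A ^ (n + 1)) (κ : ℝ)
    (hκ : 0 < κ) (hκ3 : κ < 1 / 3) : PowerSparse (BadSeq f κ) := by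
  have hl : 0 ≤ Real.log ((A : ℝ) + 1) :=
    Real.log_nonneg (by linarith [(Nat.cast_nonneg A : (0 : ℝ) ≤ A)])
  refine seq f 1 (Real.log (A + 1) + Real.log 2) κ zero_le_one
    (add_nonneg hl (Real.log_nonneg (by norm_num))) hκ (fun n => ?_) (by linarith)
  have hA0 : (0 : ℝ) ≤ A := Nat.cast_nonneg A
  have hn1 : (1 : ℝ) ≤ (n : ℝ) + 1 := by linarith [(Nat.cast_nonneg n : (0 : ℝ) ≤ n)]
  have h1 : (((f n).natAbs : ℕ) : ℝ) + 1 ≤ 2 * ((A : ℝ) + 1) ^ (n + 1) := by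
    have h2 : (((f n).natAbs : ℕ) : ℝ) ≤ (A : ℝ) ^ (n + 1) := by exact_mod_cast hf n
    have h3 : (A : ℝ) ^ (n + 1) ≤ ((A : ℝ) + 1) ^ (n + 1) :=
      pow_le_pow_left₀ hA0 (by linarith) _
    have h4 : 1 ≤ ((A : ℝ) + 1) ^ (n + 1) := one_le_pow₀ (by linarith)
    linarith
  rw [Real.rpow_one]
  calc Real.log ((((f n).natAbs : ℕ) : ℝ) + 1) ≤ Real.log (2 * ((A : ℝ) + 1) ^ (n + 1)) :=
        Real.log_le_log (by positivity) h1
    _ = Real.log 2 + ((n : ℝ) + 1) * Real.log (A + 1) := by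
        rw [Real.log_mul (by norm_num) (by positivity), Real.log_pow]
        push_cast
        ring
    _ ≤ Real.log 2 * ((n : ℝ) + 1) + ((n : ℝ) + 1) * Real.log (A + 1) := by
        have := le_mul_of_one_le_right (Real.log_nonneg (by norm_num : (1 : ℝ) ≤ 2)) hn1
        linarith
    _ = (Real.log (A + 1) + Real.log 2) * ((n : ℝ) + 1) := by ring

/-- The number of `c` in `(x, x + y]` such that `|c + b|` is a solution for some `b` in a finite set
`S` of integers of absolute value at most `B` is at most `C |S| √(y log (|x| + y + B + 2))`. For a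
sequence `f` with `log (|f n| + 1) ≤ D (n + 1) ^ θ` and `κ (2 + θ) < 1`, all integers `c` with
`|c| ≤ X`, with at most `X ^ (1 - δ)` exceptions, have the property that `|c + f n|` is a solution for
no `n ≤ |c| ^ κ`. This holds for `f` a polynomial and `κ < 1 / 2`, and for `f` with
`|f n| ≤ A ^ (n + 1)` and `κ < 1 / 3`. -/
theorem result :
    (∃ C : ℝ, 0 < C ∧ ∀ (x : ℤ) (y B : ℕ) (S : Finset ℤ), 1 ≤ y →
      (∀ b ∈ S, b.natAbs ≤ B) → (Bad x y S).Finite ∧
      ((Bad x y S).ncard : ℝ) ≤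
        C * S.card * Real.sqrt (y * Real.log ((x.natAbs : ℝ) + y + B + 2))) ∧
    (∀ (f : ℕ → ℤ) (θ D κ : ℝ), 0 ≤ θ → 0 ≤ D → 0 < κ →
      (∀ n : ℕ, Real.log (((f n).natAbs : ℝ) + 1) ≤ D * ((n : ℝ) + 1) ^ θ) →
      κ * (2 + θ) < 1 → PowerSparse (BadSeq f κ)) ∧
    (∀ (F : Polynomial ℤ) (κ : ℝ), 0 < κ → κ < 1 / 2 →
      PowerSparse (BadSeq (fun n => F.eval (n : ℤ)) κ)) ∧
    (∀ (f : ℕ → ℤ) (A : ℕ), (∀ n, (f n).natAbs ≤ A ^ (n + 1)) → ∀ κ : ℝ, 0 < κ → κ < 1 / 3 →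
      PowerSparse (BadSeq f κ)) :=
  ⟨many, seq, polySparse, expSparse⟩

end Pool.Agent.Results.MP_b50d59_nt.AlmostAllTranslates
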