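import Pool.Agent.Q44.Appr
import Pool.Agent.Q21.DW.Dy
import Pool.Agent.TH43.LK.Main
import Pool.Agent.H95R2.Leh.Final
import Pool.Agent.H95R2.Leh.Congr

set_option autoImplicit false

/-! # Lehmer's totient problem at the continued fractions of almost all real numbers

For almost every real number `α` NO numerator, denominator or other nonzero integral combination of the
two of the convergents of the continued fraction of `α` is a composite integer `n > 4` with
`φ(n) ∣ n - a(n)`, apart from finitely many convergents (depending on the combination); the exceptional set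
of real numbers `α` has Hausdorff dimension at most `3 / 4`.  The same for the approximations of other
qualities, for simultaneous approximations of points of `ℝ ^ d` and for the values of all polynomials at the
denominator and the numerators of the approximations. -/

namespace Pool.Agent.Results.MP_b50d59_nt.GoodApproximations

open Finset
open Pool.Agent.H95R2.Leh Pool.Agent.TH43.LK Pool.Agent.Q44.CF

/-- `n` is a composite integer larger than `4` such that `φ(n)` divides `n - a(n)`, where `a(n)` is the largest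
exponent in the prime factorisation of `n` -/
def Solution (n : ℕ) : Prop := 4 < n ∧ ¬ n.Prime ∧ n.totient ∣ (n - Nca8c8b9b.a n)

/-- if `n` is a solution then all its prime factors are at most `n ^ β` -/
def Smooth (β : ℝ) (n : ℕ) : Prop := Solution n → ∀ p : ℕ, p.Prime → p ∣ n → (p : ℝ) ≤ (n : ℝ) ^ β

lemma first : AtApproximations (1 / 2) (fun n => ¬ Solution n) := by
  classical
  refine at_of (B := Solution) (by norm_num) ?_ (fun n h => not_not.1 h)
  obtain ⟨C, hC, h⟩ := lehmer_count 0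
  intro t ht
  refine ⟨C, fun N hN => ?_⟩
  have hN1 : (1 : ℝ) ≤ N := by exact_mod_cast hN
  rcases Nat.lt_or_ge N 2 with h2 | h2
  · have e : (Icc 1 N).filter Solution = ∅ := by
      apply filter_eq_empty_iff.2
      intro n hn h3
      rw [mem_Icc] at hn
      have := h3.1
      omega
    rw [e, card_empty, Nat.cast_zero]
    positivity
  · have h3 := h N h2
    rw [Real.rpow_zero, div_one] at h3
    refine le_trans (Nat.cast_le.2 (card_le_card ?_)) (h3.trans ?_)
    · intro n hn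
      rw [mem_filter] at hn ⊢
      exact ⟨hn.1, leh_of_congr hn.2.1 hn.2.2.1 hn.2.2.2⟩
    · rw [Real.sqrt_eq_rpow]
      exact mul_le_mul_of_nonneg_left (Real.rpow_le_rpow_of_exponent_le hN1 ht.le) hC.le

lemma second (β : ℝ) (hβ : 1 / 4 < β) (hβ1 : β ≤ 2 / 3) :
    AtApproximations (min (2 * (1 - β) / 3) (1 - 3 * β / 2)) (Smooth β) := by
  classical
  have hs0 : 0 ≤ min (2 * (1 - β) / 3) (1 - 3 * β / 2) := le_min (by linarith) (by linarith)
  refine at_of (B := fun n => ¬ Smooth β n) hs0 ?_ (fun n h => h)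
  refine Pool.Agent.Q21.DW.ps_dyadic' hs0 ?_
  intro t ht
  obtain ⟨C1, hC1, h1⟩ := main_one (t - min (2 * (1 - β) / 3) (1 - 3 * β / 2)) (by linarith)
  obtain ⟨C2, hC2, h2⟩ := main_two (t - min (2 * (1 - β) / 3) (1 - 3 * β / 2)) (by linarith)
  -- large `N`
  have hlim : ∀ᶠ N : ℕ in Filter.atTop, (4 : ℝ) ≤ (N : ℝ) ^ β ∧ (N : ℝ) ≤ ((N : ℝ) ^ β / 4) ^ 4 := by
    have ha : Filter.Tendsto (fun N : ℕ => (N : ℝ) ^ β) Filter.atTop Filter.atTop :=
      (tendsto_rpow_atTop (by linarith)).comp tendsto_natCast_atTop_atTop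
    have hb : Filter.Tendsto (fun N : ℕ => (N : ℝ) ^ (4 * β - 1)) Filter.atTop Filter.atTop :=
      (tendsto_rpow_atTop (by linarith)).comp tendsto_natCast_atTop_atTop
    filter_upwards [ha.eventually_ge_atTop 4, hb.eventually_ge_atTop 256, Filter.eventually_ge_atTop 1]
      with N h3 h4 h5
    refine ⟨h3, ?_⟩
    have hN0 : (0 : ℝ) < N := by exact_mod_cast h5
    have e : ((N : ℝ) ^ β / 4) ^ 4 = (N : ℝ) * (N : ℝ) ^ (4 * β - 1) / 256 := by
      rw [div_pow, ← Real.rpow_natCast, ← Real.rpow_mul hN0.le]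
      have e1 : β * ((4 : ℕ) : ℝ) = 1 + (4 * β - 1) := by push_cast; ring
      rw [e1, Real.rpow_add hN0, Real.rpow_one]
      norm_num
    rw [e]
    nlinarith
  obtain ⟨N₀, hN₀⟩ := Filter.eventually_atTop.1 hlim
  refine ⟨max (C1 * 4) (C2 * 8), N₀, fun N hN hN1 => ?_⟩
  obtain ⟨h3, h4⟩ := hN₀ N hN
  have hN0 : (0 : ℝ) < N := by exact_mod_cast hN1
  set y : ℕ := ⌊((N : ℝ) / 2) ^ β⌋₊ with hy
  have h5 : (N : ℝ) ^ β / 4 ≤ y := by
    have h6 : (N : ℝ) ^ β / 2 ≤ ((N : ℝ) / 2) ^ β := by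
      rw [Real.div_rpow hN0.le (by norm_num)]
      apply div_le_div_of_nonneg_left (by positivity) (by positivity)
      calc (2 : ℝ) ^ β ≤ (2 : ℝ) ^ (1 : ℝ) := Real.rpow_le_rpow_of_exponent_le (by norm_num) (by linarith)
        _ = 2 := Real.rpow_one 2
    have h7 := Nat.lt_floor_add_one (((N : ℝ) / 2) ^ β)
    have h8 : ((N : ℝ) / 2) ^ β < (y : ℝ) + 1 := h7
    linarith
  have hy1 : 1 ≤ y := by
    have h6 : (1 : ℝ) ≤ y := by linarith
    exact_mod_cast h6
  have hy4 : N ≤ y ^ 4 := by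
    have h6 : (N : ℝ) ≤ (y : ℝ) ^ 4 := h4.trans (pow_le_pow_left₀ (by positivity) h5 4)
    exact_mod_cast h6
  have hsub : {n : ℕ | 1 ≤ n ∧ n ≤ N ∧ N < 2 * n ∧ ¬ Smooth β n} ⊆ ((AA N y : Finset ℕ) : Set ℕ) := by
    rintro n ⟨hn0, hn1', hn2, hn3⟩
    have hn1 : n ∈ Icc 1 N := mem_Icc.2 ⟨hn0, hn1'⟩
    unfold Smooth at hn3
    push Not at hn3
    obtain ⟨hL, p, hp, hpn, hlt⟩ := hn3
    unfold AA
    rw [mem_coe, mem_filter]
    refine ⟨hn1, leh_of_congr hL.1 hL.2.1 hL.2.2, p, hp, hpn, ?_⟩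
    have h6 : (N : ℝ) / 2 ≤ n := by
      have : (N : ℝ) < 2 * n := by exact_mod_cast hn2
      linarith
    have h7 : (y : ℝ) < p := lt_of_le_of_lt ((Nat.floor_le (by positivity)).trans
      (Real.rpow_le_rpow (by positivity) h6 (by linarith))) hlt
    exact_mod_cast h7
  have hcard : (({n : ℕ | 1 ≤ n ∧ n ≤ N ∧ N < 2 * n ∧ ¬ Smooth β n} : Set ℕ).ncard : ℝ) ≤
      ((AA N y).card : ℝ) := by
    rw [← Set.ncard_coe_finset (AA N y)]
    exact_mod_cast Set.ncard_le_ncard hsub (Finset.finite_toSet _)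
  have hN1' : (1 : ℝ) ≤ N := by exact_mod_cast hN1
  rcases min_choice (2 * (1 - β) / 3) (1 - 3 * β / 2) with hm | hm
  · refine hcard.trans ((h1 N y hy1 hy4).trans ?_)
    have h6 : ((N : ℝ) / y) ^ (2 / 3 : ℝ) ≤ 4 * (N : ℝ) ^ (2 * (1 - β) / 3) := by
      have h7 : (N : ℝ) / y ≤ 4 * (N : ℝ) ^ (1 - β) := by
        rw [div_le_iff₀ (by linarith)]
        have h8 : (N : ℝ) = (N : ℝ) ^ (1 - β) * (N : ℝ) ^ β := by
          rw [← Real.rpow_add hN0]
          simp
        calc (N : ℝ) = (N : ℝ) ^ (1 - β) * (N : ℝ) ^ β := h8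
          _ = 4 * (N : ℝ) ^ (1 - β) * ((N : ℝ) ^ β / 4) := by ring
          _ ≤ _ := mul_le_mul_of_nonneg_left h5 (by positivity)
      calc ((N : ℝ) / y) ^ (2 / 3 : ℝ) ≤ (4 * (N : ℝ) ^ (1 - β)) ^ (2 / 3 : ℝ) :=
            Real.rpow_le_rpow (by positivity) h7 (by norm_num)
        _ = 4 ^ (2 / 3 : ℝ) * (N : ℝ) ^ ((1 - β) * (2 / 3)) := by
            rw [Real.mul_rpow (by norm_num) (by positivity), Real.rpow_mul hN0.le]
        _ ≤ 4 * (N : ℝ) ^ (2 * (1 - β) / 3) := by
            have e1 : (1 - β) * (2 / 3) = 2 * (1 - β) / 3 := by ring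
            rw [e1]
            apply mul_le_mul_of_nonneg_right _ (by positivity)
            calc (4 : ℝ) ^ (2 / 3 : ℝ) ≤ (4 : ℝ) ^ (1 : ℝ) :=
                  Real.rpow_le_rpow_of_exponent_le (by norm_num) (by norm_num)
              _ = 4 := Real.rpow_one 4
    calc C1 * (N : ℝ) ^ (t - min (2 * (1 - β) / 3) (1 - 3 * β / 2)) * ((N : ℝ) / y) ^ (2 / 3 : ℝ) ≤
          C1 * (N : ℝ) ^ (t - min (2 * (1 - β) / 3) (1 - 3 * β / 2)) * (4 * (N : ℝ) ^ (2 * (1 - β) / 3)) :=
          mul_le_mul_of_nonneg_left h6 (by positivity)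
      _ = C1 * 4 * (N : ℝ) ^ t := by
          rw [hm]
          have e1 : (N : ℝ) ^ t = (N : ℝ) ^ (t - 2 * (1 - β) / 3) * (N : ℝ) ^ (2 * (1 - β) / 3) := by
            rw [← Real.rpow_add hN0]
            congr 1
            ring
          rw [e1]
          ring
      _ ≤ _ := mul_le_mul_of_nonneg_right (le_max_left _ _) (by positivity)
  · refine hcard.trans ((h2 N y hy1).trans ?_)
    have h6 : (N : ℝ) / (y : ℝ) ^ (3 / 2 : ℝ) ≤ 8 * (N : ℝ) ^ (1 - 3 * β / 2) := by
      have h7 : (N : ℝ) ^ (3 * β / 2) / 8 ≤ (y : ℝ) ^ (3 / 2 : ℝ) := by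
        have h8 : ((N : ℝ) ^ β / 4) ^ (3 / 2 : ℝ) ≤ (y : ℝ) ^ (3 / 2 : ℝ) :=
          Real.rpow_le_rpow (by positivity) h5 (by norm_num)
        have h9 : ((N : ℝ) ^ β / 4) ^ (3 / 2 : ℝ) = (N : ℝ) ^ (3 * β / 2) / 8 := by
          rw [Real.div_rpow (by positivity) (by norm_num), ← Real.rpow_mul hN0.le]
          have e1 : β * (3 / 2) = 3 * β / 2 := by ring
          have e2 : (4 : ℝ) ^ (3 / 2 : ℝ) = 8 := by
            have e3 : (4 : ℝ) = 2 ^ (2 : ℝ) := by norm_num
            rw [e3, ← Real.rpow_mul (by norm_num)]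
            norm_num
          rw [e1, e2]
        rw [← h9]
        exact h8
      have hy0 : (0 : ℝ) < (y : ℝ) ^ (3 / 2 : ℝ) := by
        have : (0 : ℝ) < y := by exact_mod_cast hy1
        positivity
      rw [div_le_iff₀ hy0]
      have h8 : (N : ℝ) = (N : ℝ) ^ (1 - 3 * β / 2) * (N : ℝ) ^ (3 * β / 2) := by
        rw [← Real.rpow_add hN0]
        simp
      calc (N : ℝ) = (N : ℝ) ^ (1 - 3 * β / 2) * (N : ℝ) ^ (3 * β / 2) := h8
        _ = 8 * (N : ℝ) ^ (1 - 3 * β / 2) * ((N : ℝ) ^ (3 * β / 2) / 8) := by ring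
        _ ≤ _ := mul_le_mul_of_nonneg_left h7 (by positivity)
    calc C2 * (N : ℝ) ^ (t - min (2 * (1 - β) / 3) (1 - 3 * β / 2)) * ((N : ℝ) / (y : ℝ) ^ (3 / 2 : ℝ)) ≤
          C2 * (N : ℝ) ^ (t - min (2 * (1 - β) / 3) (1 - 3 * β / 2)) * (8 * (N : ℝ) ^ (1 - 3 * β / 2)) :=
          mul_le_mul_of_nonneg_left h6 (by positivity)
      _ = C2 * 8 * (N : ℝ) ^ t := by
          rw [hm]
          have e1 : (N : ℝ) ^ t = (N : ℝ) ^ (t - (1 - 3 * β / 2)) * (N : ℝ) ^ (1 - 3 * β / 2) := by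
            rw [← Real.rpow_add hN0]
            congr 1
            ring
          rw [e1]
          ring
      _ ≤ _ := mul_le_mul_of_nonneg_right (le_max_right _ _) (by positivity)

/-- **Theorem.** In the sense of `AtApproximations s` (numerators and denominators of the convergents of the
continued fraction of almost all real numbers, simultaneous rational approximations of the points of `ℝ ^ d`,
Hausdorff dimensions of the exceptional sets): with `s = 1 / 2` the positive integers obtained are not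
composite `n > 4` with `φ(n) ∣ n - a(n)`; and for `1 / 4 < β ≤ 2 / 3`, with
`s = min (2 (1 - β) / 3) (1 - 3 β / 2)`, if they are, they have no prime factor larger than `n ^ β`. -/
theorem result :
    AtApproximations (1 / 2) (fun n => ¬ Solution n) ∧
      ∀ β : ℝ, 1 / 4 < β → β ≤ 2 / 3 →
        AtApproximations (min (2 * (1 - β) / 3) (1 - 3 * β / 2)) (Smooth β) :=
  ⟨first, second⟩

end Pool.Agent.Results.MP_b50d59_nt.GoodApproximations
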